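import Pool.Agent.N714.AP.Constr

/-!
# Extremal progression free sets and circuits of constant depth
-/

set_option autoImplicit false

namespace Pool.Agent.N714.AP

open Finset Function Real

theorem noAP_iff (A : Finset ℕ) : NoAP 3 {q | 0 < q} A ↔ ThreeAPFree (A : Set ℕ) := by
  constructor
  · intro h a ha b hb c hc habc
    rw [mem_coe] at ha hb hc
    by_contra hne
    rcases lt_or_gt_of_ne hne with hlt | hgt
    · obtain ⟨i, hi, h5⟩ := h a (b - a) (by show 0 < b - a; omega)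
      apply h5
      interval_cases i
      · simpa using ha
      · have e : a + 1 * (b - a) = b := by omega
        rw [e]
        exact hb
      · have e : a + 2 * (b - a) = c := by omega
        rw [e]
        exact hc
    · obtain ⟨i, hi, h5⟩ := h c (a - b) (by show 0 < a - b; omega)
      apply h5
      interval_cases i
      · simpa using hc
      · have e : c + 1 * (a - b) = b := by omega
        rw [e]
        exact hb
      · have e : c + 2 * (a - b) = a := by omega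
        rw [e]
        exact ha
  · intro h a q hq
    by_contra hcon
    push Not at hcon
    have h0 : a ∈ A := by simpa using hcon 0 (by norm_num)
    have h1 : a + q ∈ A := by simpa using hcon 1 (by norm_num)
    have h2 : a + 2 * q ∈ A := hcon 2 (by norm_num)
    have h3 := h (mem_coe.2 h0) (mem_coe.2 h1) (mem_coe.2 h2) (by ring)
    have : 0 < q := hq
    omega

/-- Behrend's bound -/
theorem roth_pow (M : ℕ) : (2 : ℝ) ^ (M - 5 * √M : ℝ) ≤ rothNumberNat (2 ^ M) := by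
  have h := Behrend.roth_lower_bound (N := 2 ^ M)
  refine le_trans ?_ h
  have hl2 : (0 : ℝ) < log 2 := log_pos (by norm_num)
  have hl : (0.64 : ℝ) ≤ log 2 := by
    have := Real.log_two_gt_d9
    linarith
  push_cast
  rw [Real.log_pow, Real.rpow_sub (by norm_num), Real.rpow_natCast, div_eq_mul_inv]
  apply mul_le_mul_of_nonneg_left _ (by positivity)
  rw [← Real.rpow_neg (by norm_num), Real.rpow_def_of_pos (by norm_num)]
  apply Real.exp_le_exp.2
  have h1 : √(M * log 2) = √M * √(log 2) := Real.sqrt_mul (Nat.cast_nonneg _) _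
  rw [h1]
  have h2 : (0.8 : ℝ) ≤ √(log 2) := by
    apply Real.le_sqrt_of_sq_le
    norm_num
    linarith
  have h3 : √(log 2) * √(log 2) = log 2 := Real.mul_self_sqrt hl2.le
  have h4 : 0 ≤ √(M : ℝ) := Real.sqrt_nonneg _
  have h5 : 4 * √(log 2) ≤ 5 * log 2 := by nlinarith
  have h6 := mul_le_mul_of_nonneg_left h5 h4
  linarith

/-- the size of the sets of the construction -/
theorem size_lower {n L : ℕ} (hL : 1 ≤ L) (hLn : L ≤ n) :
    (2 : ℝ) ^ (n - L - 6 * n / √L : ℝ) ≤ (rothNumberNat (2 ^ (L - 1)) : ℝ) ^ (n / L) := by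
  have hL0 : (1 : ℝ) ≤ L := by exact_mod_cast hL
  have hs : 0 < √(L : ℝ) := Real.sqrt_pos.2 (by linarith)
  have hs1 : 1 ≤ √(L : ℝ) := by rw [Real.one_le_sqrt]; exact hL0
  have hss : √(L : ℝ) * √L = L := Real.mul_self_sqrt (by linarith)
  have hn0 : (0 : ℝ) ≤ n := Nat.cast_nonneg _
  have h0 := roth_pow (L - 1)
  set y : ℝ := ((L - 1 : ℕ) : ℝ) - 5 * √((L - 1 : ℕ) : ℝ) with hy
  have hL1 : ((L - 1 : ℕ) : ℝ) = L - 1 := by rw [Nat.cast_sub hL]; simp
  have hsq : √((L - 1 : ℕ) : ℝ) ≤ √L := Real.sqrt_le_sqrt (by rw [hL1]; linarith)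
  rcases le_or_gt 0 y with hy0 | hy0
  · have h1 : ((2 : ℝ) ^ y) ^ (n / L) ≤ (rothNumberNat (2 ^ (L - 1)) : ℝ) ^ (n / L) :=
      pow_le_pow_left₀ (by positivity) h0 _
    refine le_trans ?_ h1
    rw [← Real.rpow_natCast, ← Real.rpow_mul (by norm_num)]
    apply Real.rpow_le_rpow_of_exponent_le (by norm_num)
    have h2 : (n : ℝ) / L - 1 ≤ ((n / L : ℕ) : ℝ) := by
      have h3 : n < (n / L + 1) * L := by
        have := Nat.lt_div_mul_add (a := n) (b := L) (by omega)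
        nlinarith
      have h4 : (n : ℝ) < ((n / L : ℕ) + 1) * L := by exact_mod_cast h3
      rw [sub_le_iff_le_add, div_le_iff₀ (by linarith)]
      exact h4.le
    have h3 : y * ((n : ℝ) / L - 1) ≤ y * ((n / L : ℕ) : ℝ) := mul_le_mul_of_nonneg_left h2 hy0
    refine le_trans ?_ h3
    have h4 : L - 1 - 5 * √L ≤ y := by
      rw [hy, hL1]
      rw [hL1] at hsq
      linarith
    have h5 : y ≤ L - 1 := by
      rw [hy, hL1]
      have := Real.sqrt_nonneg ((L - 1 : ℝ))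
      linarith
    have h6 : (L - 1 - 5 * √L) * ((n : ℝ) / L) ≤ y * ((n : ℝ) / L) :=
      mul_le_mul_of_nonneg_right h4 (by positivity)
    have h7 : (n : ℝ) / L ≤ n / √L := by
      apply div_le_div_of_nonneg_left hn0 hs
      nlinarith
    have h8 : (L - 1 - 5 * √L) * ((n : ℝ) / L) = n - n / L - 5 * n / √L := by
      have key : ∀ s : ℝ, 0 < s → (s * s - 1 - 5 * s) * ((n : ℝ) / (s * s)) =
          n - n / (s * s) - 5 * n / s := by
        intro s hs
        field_simp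
      have h80 := key (√L) hs
      rw [hss] at h80
      exact h80
    have h9 : 6 * (n : ℝ) / √L = 5 * n / √L + n / √L := by ring
    nlinarith
  · have h1 : (1 : ℝ) ≤ (rothNumberNat (2 ^ (L - 1)) : ℝ) ^ (n / L) := by
      apply one_le_pow₀
      have h2 : (0 : ℝ) < rothNumberNat (2 ^ (L - 1)) := lt_of_lt_of_le (by positivity) h0
      have h3 : 0 < rothNumberNat (2 ^ (L - 1)) := by exact_mod_cast h2
      exact_mod_cast h3
    refine le_trans ?_ h1
    apply Real.rpow_le_one_of_one_le_of_nonpos (by norm_num)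
    have h2 : √((L - 1 : ℕ) : ℝ) < 5 := by
      by_contra hcon
      push Not at hcon
      have h3 : √((L - 1 : ℕ) : ℝ) * √((L - 1 : ℕ) : ℝ) = ((L - 1 : ℕ) : ℝ) :=
        Real.mul_self_sqrt (Nat.cast_nonneg _)
      nlinarith
    have h3 : ((L - 1 : ℕ) : ℝ) < 25 := by
      have h3 : √((L - 1 : ℕ) : ℝ) * √((L - 1 : ℕ) : ℝ) = ((L - 1 : ℕ) : ℝ) :=
        Real.mul_self_sqrt (Nat.cast_nonneg _)
      nlinarith [Real.sqrt_nonneg ((L - 1 : ℕ) : ℝ)]
    have h4 : L - 1 < 25 := by exact_mod_cast h3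
    have h5 : (L : ℝ) ≤ 25 := by
      have : L ≤ 25 := by omega
      exact_mod_cast this
    have h6 : √(L : ℝ) ≤ 5 := by
      rw [Real.sqrt_le_left (by norm_num)]
      linarith
    have h7 : (n : ℝ) ≤ 6 * n / √L := by
      rw [le_div_iff₀ hs]
      nlinarith
    linarith

/-- Part 5: the construction. -/
theorem construction {n L w ℓ d : ℕ} (hL : 1 ≤ L) (hLn : L ≤ n) (hw : 1 ≤ w) (hd : 2 ≤ d)
    (hℓ : n * 2 ^ (L + 1) ≤ 2 ^ ℓ) :
    ∃ A : Finset ℕ, NoAP 3 {q | 0 < q} A ∧ Decided w ℓ d n A ∧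
      rothNumberNat (2 ^ (L - 1)) ^ (n / L) ≤ A.card := by
  obtain ⟨B, hB, hc, hfree⟩ := rothNumberNat_spec (2 ^ (L - 1))
  have hB2 : ∀ x ∈ B, 2 * x < 2 ^ L := by
    intro x hx
    have h1 := mem_range.1 (hB hx)
    have h2 : 2 ^ L = 2 * 2 ^ (L - 1) := by
      conv_lhs => rw [← Nat.sub_add_cancel hL, pow_succ, mul_comm]
    omega
  refine ⟨nums n L B, nums_free hB2 ((noAP_iff B).2 hfree),
    decided_nums hL (by omega) hd hℓ B hw, ?_⟩
  rw [← hc]
  exact card_nums fun x hx => by have := hB2 x hx; omega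

/-- Part 4a: the number of pieces. -/
theorem pieces_lower {n w ℓ d T : ℕ} (hℓ : 1 ≤ ℓ) (hw : 1 ≤ w) (hd1 : 1 ≤ d) (hn : 2 ≤ n) {K : ℝ}
    {A : Finset ℕ} (hA : NoAP 3 (Steps 1) A) (hc : (2 : ℝ) ^ (n - K * √n : ℝ) ≤ A.card)
    (F : Fin T → Finset ℕ) (hF : ∀ i, Decided w ℓ d n (F i)) (hun : ∀ x, x ∈ A ↔ ∃ i, x ∈ F i) :
    (2 : ℝ) ^ ((n / 2 : ℕ) / (16 * loss w ℓ d) - 2 * ℓ - K * √n - 12 : ℝ) ≤ T := by
  have h := union_bound hℓ hw hd1 (m := 2) (by norm_num) hn (k := 3) (by norm_num) F hA hF hun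
  have h1 := hc.trans h
  rw [err] at h1
  have e1 : (T : ℝ) * (((2 : ℕ) : ℝ) * 2 ^ (2 * 2 + 3)) = T * 2 ^ 8 := by norm_num
  rw [e1] at h1
  have hX : (0 : ℝ) < loss w ℓ d := by
    have := one_le_loss hw hℓ hd1
    linarith
  have e2 : (2 : ℝ) ^ (n - K * √n : ℝ) = 2 ^ n * 2 ^ (-(K * √n) : ℝ) := by
    rw [sub_eq_add_neg, Real.rpow_add (by norm_num), Real.rpow_natCast]
  have h2n : (0 : ℝ) < 2 ^ n := by positivity
  rw [e2, mul_left_comm] at h1
  have h2 := le_of_mul_le_mul_left h1 h2n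
  have e3 : (1 : ℝ) / 2 ^ (2 + 1) / 2 * ((n / 2 : ℕ) : ℝ) / loss w ℓ d =
      ((n / 2 : ℕ) : ℝ) / (16 * loss w ℓ d) := by
    field_simp
    norm_num
    ring
  rw [e3] at h2
  set u : ℝ := ((n / 2 : ℕ) : ℝ) / (16 * loss w ℓ d) with hu
  have h3 := mul_le_mul_of_nonneg_right h2
    (by positivity : (0 : ℝ) ≤ 2 ^ (u - 2 * ℓ - 12 : ℝ))
  have e4 : (T : ℝ) * 2 ^ 8 * (2 : ℝ) ^ (2 * ℓ + 4 - u : ℝ) * 2 ^ (u - 2 * ℓ - 12 : ℝ) = T := by
    rw [mul_assoc, ← Real.rpow_add (by norm_num)]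
    have : (2 * (ℓ : ℝ) + 4 - u + (u - 2 * ℓ - 12)) = -(8 : ℕ) := by push_cast; ring
    rw [this, Real.rpow_neg (by norm_num), Real.rpow_natCast]
    field_simp
  rw [e4, ← Real.rpow_add (by norm_num)] at h3
  refine le_trans (le_of_eq ?_) h3
  congr 1
  ring

/-- Part 4b: approximation. -/
theorem approx : ∃ c : ℝ, 0 < c ∧ ∀ n w ℓ d T : ℕ, 1 ≤ w → 1 ≤ ℓ → 1 ≤ d → ∀ (K : ℝ)
    (A F : Finset ℕ), NoAP 3 {q | 0 < q} A → (2 : ℝ) ^ (n - K * √n : ℝ) ≤ A.card →
    Pieces T w ℓ d n F →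
      (1 - T * (2 : ℝ) ^ (2 * ℓ + 1 / c + K * √n - c * n / loss w ℓ d : ℝ)) * A.card ≤
        (symmDiff A F).card := by
  classical
  obtain ⟨c, hc, Q, H⟩ := rel_szem 3 (1 / 2) (by norm_num)
  set c' : ℝ := c / (1 + c) with hc'
  have hc'0 : 0 < c' := by positivity
  have hc'1 : c' ≤ c := by
    rw [hc']
    apply div_le_self hc.le
    linarith
  have hc'2 : 1 / c' = 1 + 1 / c := by
    rw [hc']
    field_simp
    ring
  refine ⟨c', hc'0, fun n w ℓ d T hw hℓ hd1 K A F hA hAc hF => ?_⟩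
  have hX : (1 : ℝ) ≤ loss w ℓ d := one_le_loss hw hℓ hd1
  have h1 := H n w ℓ d T hw hℓ hd1 F A hF (hA.mono (fun q hq => by
    obtain ⟨a, j, ha, -, rfl⟩ := hq
    show 0 < a * 2 ^ j
    positivity) (Subset.refl _))
  have h2 : ((symmDiff A F).card : ℝ) = A.card + F.card - 2 * (A ∩ F).card := by
    have e1 : symmDiff A F = (A \ F) ∪ (F \ A) := rfl
    have hd : Disjoint (A \ F) (F \ A) := by
      rw [Finset.disjoint_left]
      intro x hx hx'
      exact (mem_sdiff.1 hx).2 (mem_sdiff.1 hx').1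
    have e2 := card_sdiff_add_card_inter A F
    have e3 := card_sdiff_add_card_inter F A
    rw [inter_comm F A] at e3
    rw [e1, card_union_of_disjoint hd]
    push_cast [← e2, ← e3]
    ring
  set E : ℝ := (2 : ℝ) ^ (2 * ℓ + 1 / c - c * n / loss w ℓ d : ℝ) with hE
  have hE0 : 0 < E := by positivity
  have hT : (0 : ℝ) ≤ T := Nat.cast_nonneg _
  have h3 : (A.card : ℝ) - 2 * (T * (2 ^ n * E)) ≤ (symmDiff A F).card := by
    rw [h2]
    linarith
  refine le_trans ?_ h3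
  have h4 : 2 * (2 ^ n * E) ≤
      (2 : ℝ) ^ (2 * ℓ + 1 / c' + K * √n - c' * n / loss w ℓ d : ℝ) * A.card := by
    calc 2 * (2 ^ n * E) = (2 : ℝ) ^ (n + (2 * ℓ + (1 + 1 / c) - c * n / loss w ℓ d) : ℝ) := by
          rw [hE, Real.rpow_add (by norm_num), Real.rpow_natCast]
          have : (2 : ℝ) ^ (2 * ℓ + (1 + 1 / c) - c * n / loss w ℓ d : ℝ) =
              2 * 2 ^ (2 * ℓ + 1 / c - c * n / loss w ℓ d : ℝ) := by
            conv_rhs => rw [show (2 : ℝ) * 2 ^ (2 * ℓ + 1 / c - c * n / loss w ℓ d : ℝ) =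
              2 ^ (1 : ℝ) * 2 ^ (2 * ℓ + 1 / c - c * n / loss w ℓ d : ℝ) by rw [Real.rpow_one]]
            rw [← Real.rpow_add (by norm_num)]
            congr 1
            ring
          rw [this]
          ring
      _ ≤ (2 : ℝ) ^ ((2 * ℓ + 1 / c' + K * √n - c' * n / loss w ℓ d) + (n - K * √n) : ℝ) := by
          apply Real.rpow_le_rpow_of_exponent_le (by norm_num)
          rw [hc'2]
          have : c' * n / loss w ℓ d ≤ c * n / loss w ℓ d := by
            apply div_le_div_of_nonneg_right _ (by linarith)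
            exact mul_le_mul_of_nonneg_right hc'1 (Nat.cast_nonneg _)
          linarith
      _ = (2 : ℝ) ^ (2 * ℓ + 1 / c' + K * √n - c' * n / loss w ℓ d : ℝ) * 2 ^ (n - K * √n : ℝ) :=
          Real.rpow_add (by norm_num) _ _
      _ ≤ _ := mul_le_mul_of_nonneg_left hAc (by positivity)
  have h5 := mul_le_mul_of_nonneg_left h4 hT
  nlinarith

end Pool.Agent.N714.AP
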