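import Pool.Agent.Helper868.DHJ

/-!
# Szemeredi's theorem for the intervals `{0, …, 2 ^ m - 1}`, from density Hales-Jewett
-/

set_option autoImplicit false

namespace Pool.Agent.N714.AP

open Finset Function
open Pool.Agent.Helper868.DHJ (DensityHJ LineFree pt dens ind av density_hales_jewett)

/-- `A` contains no `k` terms `a, a + q, …, a + (k - 1) q` with `q ∈ D`. -/
def NoAP (k : ℕ) (D : Set ℕ) (A : Finset ℕ) : Prop :=
  ∀ a q : ℕ, q ∈ D → ∃ i < k, a + i * q ∉ A

theorem NoAP.mono {k : ℕ} {D D' : Set ℕ} {A A' : Finset ℕ} (h : NoAP k D A) (hD : D' ⊆ D)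
    (hA : A' ⊆ A) : NoAP k D' A' := by
  intro a q hq
  obtain ⟨i, hi, h1⟩ := h a q (hD hq)
  exact ⟨i, hi, fun h2 => h1 (hA h2)⟩

/-- **Szemeredi's theorem.** -/
theorem szem (k : ℕ) (δ : ℝ) (hδ : 0 < δ) : ∃ M₀ : ℕ, ∀ M : ℕ, M₀ ≤ M →
    ∀ B : Finset ℕ, B ⊆ range M → NoAP k {q | 0 < q} B → (B.card : ℝ) ≤ δ * M := by
  classical
  rcases Nat.eq_zero_or_pos k with rfl | hk
  · refine ⟨0, fun M _ B _ h => ?_⟩
    obtain ⟨i, hi, -⟩ := h 0 1 (by simp)
    omega
  have : Nonempty (Fin k) := ⟨⟨0, hk⟩⟩
  obtain ⟨N, hN⟩ := density_hales_jewett (Fin k) (δ / 2) (by positivity)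
  refine ⟨⌈2 * (N * k) / δ⌉₊, fun M hM B hB hfree => ?_⟩
  have hMR : 2 * (N * k) / δ ≤ (M : ℝ) := (Nat.le_ceil _).trans (by exact_mod_cast hM)
  rw [div_le_iff₀ hδ] at hMR
  by_contra hcon
  push Not at hcon
  set X := Fin N → Fin k
  have hX : (0 : ℝ) < Fintype.card X := by exact_mod_cast Fintype.card_pos
  set s : X → ℕ := fun x => ∑ i, (x i : ℕ) with hs
  have hsle : ∀ x, s x ≤ N * k := by
    intro x
    calc ∑ i, ((x i : Fin k) : ℕ) ≤ ∑ _i : Fin N, k := sum_le_sum fun i _ => (x i).2.le
      _ = N * k := by simp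
  -- every translate has small density
  have hy : ∀ y : ℕ, ((univ.filter fun x : X => y + s x ∈ B).card : ℝ) < δ / 2 * Fintype.card X := by
    intro y
    have h1 : LineFree {x : X | y + s x ∈ B} := by
      intro u hu
      obtain ⟨e, he⟩ := hu
      set q : ℕ := (univ.filter fun i => u i = none).card with hq
      have hq0 : 0 < q := card_pos.2 ⟨e, mem_filter.2 ⟨mem_univ _, he⟩⟩
      set a0 : ℕ := ∑ i ∈ univ.filter (fun i => ¬ u i = none), (((u i).getD ⟨0, hk⟩ : Fin k) : ℕ)
        with ha0
      have hline : ∀ b : Fin k, s (pt u b) = a0 + b * q := by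
        intro b
        rw [hs]
        show ∑ i, ((pt u b i : Fin k) : ℕ) = _
        rw [← sum_filter_add_sum_filter_not univ (fun i => u i = none), add_comm]
        congr 1
        · apply sum_congr rfl
          intro i hi
          have hi' := (mem_filter.1 hi).2
          unfold pt
          cases hui : u i with
          | none => exact absurd hui hi'
          | some c => rfl
        · rw [sum_congr rfl (g := fun _ => (b : ℕ))]
          · rw [sum_const, smul_eq_mul, mul_comm, hq]
          · intro i hi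
            unfold pt
            rw [(mem_filter.1 hi).2]
            rfl
      obtain ⟨i, hi, h2⟩ := hfree (y + a0) q hq0
      refine ⟨⟨i, hi⟩, ?_⟩
      show ¬ (y + s (pt u ⟨i, hi⟩) ∈ B)
      rw [hline, ← add_assoc]
      exact h2
    have h2 := hN (Fin N) (by simp) _ h1
    unfold Pool.Agent.Helper868.DHJ.dens at h2
    rw [Pool.Agent.Helper868.DHJ.av_eq_sum, div_lt_iff₀ hX] at h2
    refine lt_of_le_of_lt (le_of_eq ?_) h2
    rw [card_filter]
    push_cast
    apply sum_congr rfl
    intro x _
    by_cases hx : y + s x ∈ B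
    · rw [if_pos hx, Pool.Agent.Helper868.DHJ.ind_mem (by exact hx)]
    · rw [if_neg hx, Pool.Agent.Helper868.DHJ.ind_not_mem (by exact hx)]
  -- double counting
  have h3 : ∑ y ∈ range M, ((univ.filter fun x : X => y + s x ∈ B).card) =
      ∑ x : X, ((range M).filter fun y => y + s x ∈ B).card := by
    simp only [card_filter]
    exact sum_comm
  have h4 : ∀ x : X, B.card ≤ ((range M).filter fun y => y + s x ∈ B).card + N * k := by
    intro x
    have h5 : B ⊆ (((range M).filter fun y => y + s x ∈ B).image fun y => y + s x) ∪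
        range (N * k) := by
      intro b hb
      rw [mem_union, mem_image]
      by_cases hbs : b < N * k
      · exact Or.inr (mem_range.2 hbs)
      · left
        have h6 := hsle x
        have h7 := mem_range.1 (hB hb)
        refine ⟨b - s x, mem_filter.2 ⟨mem_range.2 (by omega), ?_⟩, by omega⟩
        rwa [Nat.sub_add_cancel (by omega)]
    calc B.card ≤ _ := card_le_card h5
      _ ≤ _ := card_union_le _ _
      _ ≤ _ := Nat.add_le_add card_image_le (by rw [card_range])
  have h8 : (∑ y ∈ range M, ((univ.filter fun x : X => y + s x ∈ B).card) : ℝ) ≤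
      M * (δ / 2 * Fintype.card X) := by
    calc (∑ y ∈ range M, ((univ.filter fun x : X => y + s x ∈ B).card) : ℝ) ≤
        ∑ _y ∈ range M, (δ / 2 * Fintype.card X : ℝ) := sum_le_sum fun y _ => (hy y).le
      _ = _ := by rw [sum_const, card_range, nsmul_eq_mul]
  have h9 : (Fintype.card X : ℝ) * B.card ≤
      (∑ x : X, ((range M).filter fun y => y + s x ∈ B).card : ℝ) + Fintype.card X * (N * k) := by
    have h10 := sum_le_sum fun x (_ : x ∈ (univ : Finset X)) => h4 x
    rw [sum_const, card_univ, smul_eq_mul, sum_add_distrib, sum_const, card_univ,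
      smul_eq_mul] at h10
    exact_mod_cast h10
  have h11 : (∑ x : X, ((range M).filter fun y => y + s x ∈ B).card : ℝ) =
      (∑ y ∈ range M, ((univ.filter fun x : X => y + s x ∈ B).card) : ℝ) := by
    exact_mod_cast h3.symm
  rw [h11] at h9
  have h12 : (Fintype.card X : ℝ) * B.card ≤ Fintype.card X * (δ * M) := by
    have : M * (δ / 2 * Fintype.card X) + (Fintype.card X : ℝ) * (N * k) ≤
        Fintype.card X * (δ * M) := by nlinarith
    linarith
  have h13 := le_of_mul_le_mul_left h12 hX
  linarith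

end Pool.Agent.N714.AP
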