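import Pool.Agent.Y347.CO.Rel
import Pool.Agent.Y220.CO.Tail
import Pool.Agent.N714.AP.Szem

/-!
# Sets of integers without progressions inside sets decided by circuits of constant depth
-/

set_option autoImplicit false

namespace Pool.Agent.N714.AP

open Finset Function
open Pool.Agent.Y347.CO

/-- the number with the binary digits `b` -/
def num {n : ℕ} (b : Fin n → Bool) : ℕ := ∑ i, if b i = true then 2 ^ (i : ℕ) else 0

theorem num_succ {n : ℕ} (b : Fin (n + 1) → Bool) :
    num b = (if b 0 = true then 1 else 0) + 2 * num (fun i : Fin n => b i.succ) := by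
  rw [num, Fin.sum_univ_succ, num, mul_sum]
  congr 1
  apply sum_congr rfl
  intro i _
  split_ifs
  · rw [Fin.val_succ, pow_succ, mul_comm]
  · rfl

theorem num_lt {n : ℕ} (b : Fin n → Bool) : num b < 2 ^ n := by
  induction n with
  | zero => simp [num]
  | succ n ih =>
    have h := ih (fun i => b i.succ)
    rw [num_succ, pow_succ]
    split_ifs <;> omega

theorem bits_num {n : ℕ} (b : Fin n → Bool) : Y603.MS.bits n (num b) = b := by
  induction n with
  | zero => exact Subsingleton.elim _ _
  | succ n ih =>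
    funext i
    have h := num_succ b
    refine Fin.cases ?_ (fun i => ?_) i
    · show (num b).testBit 0 = b 0
      rw [h, Nat.testBit_zero]
      cases b 0 <;> simp <;> omega
    · show (num b).testBit (i.succ : ℕ) = b i.succ
      rw [Fin.val_succ, Nat.testBit_succ]
      have h2 : num b / 2 = num (fun i : Fin n => b i.succ) := by
        rw [h]
        split_ifs <;> omega
      rw [h2]
      exact congrFun (ih (fun i => b i.succ)) i

theorem num_injective {n : ℕ} : Injective (num : (Fin n → Bool) → ℕ) := fun a b h => by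
  rw [← bits_num a, h, bits_num]

theorem num_bits {n x : ℕ} (hx : x < 2 ^ n) : num (Y603.MS.bits n x) = x := by
  have h1 : (univ : Finset (Fin n → Bool)).image num = range (2 ^ n) := by
    apply eq_of_subset_of_card_le
    · intro y hy
      obtain ⟨b, -, rfl⟩ := mem_image.1 hy
      exact mem_range.2 (num_lt b)
    · rw [card_range, card_image_of_injective _ num_injective, card_univ, Fintype.card_pi,
        prod_const, card_univ, Fintype.card_fin, Fintype.card_bool]
  have h2 : x ∈ (univ : Finset (Fin n → Bool)).image num := by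
    rw [h1]
    exact mem_range.2 hx
  obtain ⟨b, -, rfl⟩ := mem_image.1 h2
  rw [bits_num]

/-- the bit vectors of the elements of `A` -/
def lift (n : ℕ) (A : Finset ℕ) : Finset (Fin n → Bool) := univ.filter fun b => num b ∈ A

theorem mem_lift {n : ℕ} {A : Finset ℕ} {b : Fin n → Bool} : b ∈ lift n A ↔ num b ∈ A := by
  simp [lift]

theorem lift_inter (n : ℕ) (A B : Finset ℕ) : lift n (A ∩ B) = lift n A ∩ lift n B := by
  ext b
  simp [lift]

theorem card_lift {n : ℕ} {A : Finset ℕ} (hA : ∀ x ∈ A, x < 2 ^ n) : (lift n A).card = A.card := by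
  have : (lift n A).image num = A := by
    ext x
    rw [mem_image]
    constructor
    · rintro ⟨b, hb, rfl⟩
      exact mem_lift.1 hb
    · intro hx
      exact ⟨Y603.MS.bits n x, mem_lift.2 (by rwa [num_bits (hA x hx)]), num_bits (hA x hx)⟩
  conv_rhs => rw [← this]
  exact (card_image_of_injective _ num_injective).symm

section block
variable {n m : ℕ}

/-- the position of the bit `a` of the block `j` -/
def pos (j : Fin (n / m)) (a : Fin m) : Fin n :=
  ⟨j * m + a, by
    have h1 : (j : ℕ) + 1 ≤ n / m := j.2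
    have h2 : ((j : ℕ) + 1) * m ≤ n / m * m := Nat.mul_le_mul_right _ h1
    have h3 : n / m * m ≤ n := Nat.div_mul_le_self _ _
    have h4 := a.2
    have h5 : ((j : ℕ) + 1) * m = j * m + m := by ring
    omega⟩

theorem pos_inj {j j' : Fin (n / m)} {a a' : Fin m} (h : pos j a = pos j' a') :
    j = j' ∧ a = a' := by
  have h1 : (j : ℕ) * m + a = j' * m + a' := congrArg Fin.val h
  have ha := a.2
  have ha' := a'.2
  have hm : 0 < m := by omega
  have h2 : ((j : ℕ) * m + a) / m = j := by
    rw [Nat.mul_comm, Nat.mul_add_div hm, Nat.div_eq_of_lt ha, add_zero]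
  have h3 : ((j' : ℕ) * m + a') / m = j' := by
    rw [Nat.mul_comm, Nat.mul_add_div hm, Nat.div_eq_of_lt ha', add_zero]
  have h4 : (j : ℕ) = j' := by rw [← h2, ← h3, h1]
  have h5 : (a : ℕ) = a' := by
    rw [h4] at h1
    omega
  exact ⟨Fin.ext h4, Fin.ext h5⟩

/-- the positions of the block `j` -/
def blk (j : Fin (n / m)) : Finset (Fin n) := univ.image (pos j)

theorem blk_disj {j j' : Fin (n / m)} (h : j ≠ j') : Disjoint (blk (n := n) (m := m) j) (blk j') := by
  rw [Finset.disjoint_left]
  intro i hi hi'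
  obtain ⟨a, -, ha⟩ := mem_image.1 hi
  obtain ⟨a', -, ha'⟩ := mem_image.1 hi'
  exact h (pos_inj (ha.trans ha'.symm)).1

theorem blk_card (j : Fin (n / m)) : (blk (n := n) (m := m) j).card ≤ m := by
  refine card_image_le.trans ?_
  rw [card_univ, Fintype.card_fin]

/-- flip the bits of the block `j` which are marked by `t` -/
def act (j : Fin (n / m)) (t : Fin m → Bool) : (Fin n → Bool) → (Fin n → Bool) :=
  flipSet ((univ.filter fun a => t a = true).image (pos j))

theorem act_eq (j : Fin (n / m)) (t : Fin m → Bool) :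
    ∃ v ⊆ blk j, ∀ p : Fin n → Bool, act j t p = flipSet v p :=
  ⟨_, image_subset_image (filter_subset _ _), fun _ => rfl⟩

theorem act_pos (j : Fin (n / m)) (t : Fin m → Bool) (p : Fin n → Bool) (a : Fin m) :
    act j t p (pos j a) = xor (p (pos j a)) (t a) := by
  rw [act, flipSet]
  by_cases h : t a = true
  · rw [if_pos (mem_image.2 ⟨a, mem_filter.2 ⟨mem_univ _, h⟩, rfl⟩), h]
    simp
  · rw [if_neg]
    · rw [Bool.not_eq_true] at h
      rw [h]
      simp
    · intro hcon
      obtain ⟨a', ha', he⟩ := mem_image.1 hcon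
      rw [(pos_inj he).2] at ha'
      exact h (mem_filter.1 ha').2

theorem act_out (j : Fin (n / m)) (t : Fin m → Bool) (p : Fin n → Bool) {i : Fin n}
    (hi : i ∉ blk j) : act j t p i = p i := by
  rw [act, flipSet, if_neg]
  exact fun h => hi (image_subset_image (filter_subset _ _) h)

/-- the part of the number outside of the block -/
def base (j : Fin (n / m)) (p : Fin n → Bool) : ℕ :=
  ∑ i ∈ (blk j)ᶜ, if p i = true then 2 ^ (i : ℕ) else 0

theorem num_split (j : Fin (n / m)) (p : Fin n → Bool) :
    num p = base j p + 2 ^ (j * m : ℕ) * num (fun a : Fin m => p (pos j a)) := by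
  rw [num, base, ← sum_compl_add_sum (blk j)]
  congr 1
  rw [blk, sum_image (fun a _ a' _ h => (pos_inj h).2), num, mul_sum]
  apply sum_congr rfl
  intro a _
  split_ifs
  · rw [← pow_add]
    rfl
  · rfl

theorem num_act (j : Fin (n / m)) (t : Fin m → Bool) (p : Fin n → Bool) :
    num (act j t p) = base j p + 2 ^ (j * m : ℕ) * num (fun a : Fin m => xor (p (pos j a)) (t a)) := by
  rw [num_split j]
  congr 1
  · apply sum_congr rfl
    intro i hi
    rw [act_out j t p (mem_compl.1 hi)]
  · congr 2
    funext a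
    rw [act_pos]

/-- the elements of `A` in a class of a block -/
theorem block_count (A : Finset ℕ) (j : Fin (n / m)) (p : Fin n → Bool) :
    (univ.filter fun t : Fin m → Bool => act j t p ∈ lift n A).card =
      ((range (2 ^ m)).filter fun s => base j p + 2 ^ (j * m : ℕ) * s ∈ A).card := by
  set f : (Fin m → Bool) → ℕ := fun t => num (fun a : Fin m => xor (p (pos j a)) (t a)) with hf
  have hinj : Injective f := by
    intro t t' h
    have h1 := num_injective h
    funext a
    have h2 := congrFun h1 a
    simpa using h2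
  rw [← card_image_of_injective _ hinj]
  congr 1
  ext s
  rw [mem_image, mem_filter, mem_range]
  constructor
  · rintro ⟨t, ht, rfl⟩
    have h1 := (mem_filter.1 ht).2
    rw [mem_lift, num_act] at h1
    exact ⟨num_lt _, h1⟩
  · rintro ⟨hs, hA⟩
    refine ⟨fun a => xor (p (pos j a)) (Y603.MS.bits m s a), ?_, ?_⟩
    · rw [mem_filter, mem_lift, num_act]
      refine ⟨mem_univ _, ?_⟩
      have : (fun a : Fin m => xor (p (pos j a)) (xor (p (pos j a)) (Y603.MS.bits m s a))) =
          Y603.MS.bits m s := by
        funext a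
        simp
      rw [this, num_bits hs]
      exact hA
    · rw [hf]
      have : (fun a : Fin m => xor (p (pos j a)) (xor (p (pos j a)) (Y603.MS.bits m s a))) =
          Y603.MS.bits m s := by
        funext a
        simp
      show num (fun a : Fin m => xor (p (pos j a)) (xor (p (pos j a)) (Y603.MS.bits m s a))) = s
      rw [this, num_bits hs]

end block

/-- **The relative bound.** If `A` has at most `r` elements in each class
`{c + 2 ^ (j m) s : s < 2 ^ m}`, then its relative density in a set which is decided by a circuit of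
constant depth is at most `r / 2 ^ m`, up to a small error. -/
theorem rel_blocks {n m w ℓ d r : ℕ} (C : Y603.MS.Circuit w n) (hleak : C.leak = ∅)
    (hℓ : 1 ≤ ℓ) (hw : 1 ≤ w) (hd1 : 1 ≤ d) (hs : Nat.card C.Node ≤ 2 ^ ℓ)
    (hd : ∀ v, C.depth v ≤ d) (o : C.Node) (hm : 1 ≤ m) (hmn : m ≤ n) (F A : Finset ℕ)
    (hF : ∀ x, x ∈ F ↔ x < 2 ^ n ∧ C.val o (Y603.MS.bits n x) = true)
    (hA : ∀ c j : ℕ, ((range (2 ^ m)).filter fun s => c + 2 ^ (j * m : ℕ) * s ∈ A).card ≤ r)
    {ε : ℝ} (hε : 0 < ε) :
    ((A ∩ F).card : ℝ) ≤ (r / 2 ^ m + ε) * F.card +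
      2 * m / ε * (2 ^ n * (2 : ℝ) ^ (2 * ℓ + 4 - ε / 2 * (n / m : ℕ) / (d * KK d w ℓ))) := by
  have hFn : ∀ x ∈ F, x < 2 ^ n := fun x hx => ((hF x).1 hx).1
  have hF' : ∀ p : Fin n → Bool, p ∈ lift n F ↔ C.val o ((Equiv.refl _) p) = true := by
    intro p
    rw [mem_lift, hF, bits_num]
    exact ⟨fun h => h.2, fun h => ⟨num_lt p, h⟩⟩
  have hcF : (lift n F).card = F.card := card_lift hFn
  have hcAF : (lift n A ∩ lift n F).card = (A ∩ F).card := by
    rw [← lift_inter]
    exact card_lift fun x hx => hFn x (mem_inter.1 hx).2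
  by_cases hlarge : 2 * m / ε *
      (2 ^ n * (2 : ℝ) ^ (2 * ℓ + 4 - ε / 2 * (n / m : ℕ) / (d * KK d w ℓ))) ≤ F.card
  · have h := rel_circ (W := Fin n → Bool) Y220.CO.done C hleak hℓ hw hd1 hs hd o (Equiv.refl _)
      (lift n F) (lift n A) hF' (k := n / m) (q := m) (Nat.div_pos hmn (by omega))
      (fun j => blk j) (fun j j' hj => blk_disj hj) (fun j => blk_card j)
      (T := Fin m → Bool) (fun j t => act j t) (fun j t => act_eq j t) r
      (fun j p => by rw [block_count]; exact hA _ _) hε (by rw [hcF]; exact hlarge)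
    rw [hcF, hcAF] at h
    have hT : (Fintype.card (Fin m → Bool) : ℝ) = 2 ^ m := by simp
    rw [hT] at h
    have h2 : 0 ≤ 2 * m / ε *
      (2 ^ n * (2 : ℝ) ^ (2 * ℓ + 4 - ε / 2 * (n / m : ℕ) / (d * KK d w ℓ))) := by positivity
    linarith
  · push Not at hlarge
    have h1 : ((A ∩ F).card : ℝ) ≤ F.card := by exact_mod_cast card_le_card inter_subset_right
    have h2 : 0 ≤ ((r : ℝ) / 2 ^ m + ε) * F.card := by positivity
    linarith

end Pool.Agent.N714.AP
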