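import Pool.Agent.N714.AP.Main

/-!
# Progression free sets decided by circuits of depth two
-/

set_option autoImplicit false

namespace Pool.Agent.N714.AP

open Finset Function

section constr
variable {n L : ℕ}

/-- the digits in base `2 ^ L` of a bit vector -/
def dig (b : Fin n → Bool) (j : Fin (n / L)) : ℕ := num (fun a : Fin L => b (pos j a))

/-- the bits above the last block vanish -/
def TopZero (L : ℕ) (b : Fin n → Bool) : Prop := ∀ i : Fin n, n / L * L ≤ i → b i = false

theorem num_eq_sum {b : Fin n → Bool} (hb : TopZero L b) :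
    num b = ∑ j : Fin (n / L), dig b j * (2 ^ L) ^ (j : ℕ) := by
  classical
  have h1 : num b = ∑ i ∈ univ.biUnion (fun j : Fin (n / L) => blk (m := L) j),
      if b i = true then 2 ^ (i : ℕ) else 0 := by
    rw [num]
    symm
    apply sum_subset (subset_univ _)
    intro i _ hi
    have h2 : n / L * L ≤ i := by
      by_contra hcon
      push Not at hcon
      apply hi
      have hL : 0 < L := by
        rcases Nat.eq_zero_or_pos L with rfl | h
        · simp at hcon
        · exact h
      have hj : (i : ℕ) / L < n / L := (Nat.div_lt_iff_lt_mul hL).2 hcon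
      refine mem_biUnion.2 ⟨⟨(i : ℕ) / L, hj⟩, mem_univ _, mem_image.2
        ⟨⟨(i : ℕ) % L, Nat.mod_lt _ hL⟩, mem_univ _, ?_⟩⟩
      apply Fin.ext
      show (i : ℕ) / L * L + (i : ℕ) % L = i
      exact Nat.div_add_mod' _ _
    rw [hb i h2]
    simp
  rw [h1, sum_biUnion fun j _ j' _ h => blk_disj h]
  apply sum_congr rfl
  intro j _
  rw [blk, sum_image (fun a _ a' _ h => (pos_inj h).2), dig, num, sum_mul]
  apply sum_congr rfl
  intro a _
  split_ifs
  · rw [← pow_mul, ← pow_add]
    show 2 ^ ((j : ℕ) * L + a) = _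
    congr 1
    ring
  · simp

theorem dig_lt (b : Fin n → Bool) (j : Fin (n / L)) : dig b j < 2 ^ L := num_lt _

/-- numbers below `b` as digits -/
theorem digits_inj {q b : ℕ} {f g : Fin q → ℕ} (hf : ∀ j, f j < b) (hg : ∀ j, g j < b)
    (h : ∑ j, f j * b ^ (j : ℕ) = ∑ j, g j * b ^ (j : ℕ)) : f = g := by
  have h1 : (finFunctionFinEquiv (fun j => (⟨f j, hf j⟩ : Fin b)) : Fin (b ^ q)) =
      finFunctionFinEquiv (fun j => (⟨g j, hg j⟩ : Fin b)) := by
    apply Fin.ext
    rw [finFunctionFinEquiv_apply, finFunctionFinEquiv_apply]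
    exact h
  have h2 := finFunctionFinEquiv.injective h1
  funext j
  exact congrArg Fin.val (congrFun h2 j)

/-- the bit vector with the given digits -/
def vec (n L : ℕ) (f : Fin (n / L) → ℕ) : Fin n → Bool := fun i =>
  if h : (i : ℕ) / L < n / L then (f ⟨(i : ℕ) / L, h⟩).testBit ((i : ℕ) % L) else false

theorem vec_top (f : Fin (n / L) → ℕ) : TopZero L (vec n L f) := by
  intro i hi
  rw [vec, dif_neg]
  rcases Nat.eq_zero_or_pos L with rfl | hL
  · simp
  · rw [not_lt]
    exact (Nat.le_div_iff_mul_le hL).2 hi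

theorem vec_dig {f : Fin (n / L) → ℕ} (hf : ∀ j, f j < 2 ^ L) (j : Fin (n / L)) :
    dig (vec n L f) j = f j := by
  rw [dig]
  have h1 : (fun a : Fin L => vec n L f (pos j a)) = Y603.MS.bits L (f j) := by
    funext a
    have ha := a.2
    have hL : 0 < L := by omega
    have e1 : ((pos j a : Fin n) : ℕ) / L = j := by
      show ((j : ℕ) * L + a) / L = j
      rw [Nat.mul_comm, Nat.mul_add_div hL, Nat.div_eq_of_lt ha, add_zero]
    have e2 : ((pos j a : Fin n) : ℕ) % L = a := by
      show ((j : ℕ) * L + a) % L = a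
      rw [Nat.mul_comm, Nat.mul_add_mod, Nat.mod_eq_of_lt ha]
    rw [vec, dif_pos (by rw [e1]; exact j.2)]
    show _ = (f j).testBit a
    rw [e2]
    congr 2
    exact Fin.ext e1
  rw [h1, num_bits (hf j)]

/-- the bit vectors all whose digits lie in `B` -/
noncomputable def vecs (n L : ℕ) (B : Finset ℕ) : Finset (Fin n → Bool) := by
  classical
  exact univ.filter fun b => TopZero L b ∧ ∀ j : Fin (n / L), dig b j ∈ B

theorem mem_vecs {B : Finset ℕ} {b : Fin n → Bool} :
    b ∈ vecs n L B ↔ TopZero L b ∧ ∀ j : Fin (n / L), dig b j ∈ B := by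
  classical
  rw [vecs]
  simp

theorem card_vecs {B : Finset ℕ} (hB : ∀ x ∈ B, x < 2 ^ L) :
    B.card ^ (n / L) ≤ (vecs n L B).card := by
  classical
  have h1 : (Fintype.piFinset fun _ : Fin (n / L) => B).card = B.card ^ (n / L) := by
    rw [Fintype.card_piFinset, prod_const, card_univ, Fintype.card_fin]
  rw [← h1]
  apply card_le_card_of_injOn (fun f => vec n L f)
  · intro f hf
    have hf' := Fintype.mem_piFinset.1 hf
    rw [mem_coe, mem_vecs]
    refine ⟨vec_top f, fun j => ?_⟩
    rw [vec_dig fun j => hB _ (hf' j)]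
    exact hf' j
  · intro f hf g hg h
    have hf' := Fintype.mem_piFinset.1 hf
    have hg' := Fintype.mem_piFinset.1 hg
    funext j
    have h2 : dig (vec n L f) j = dig (vec n L g) j := congrArg (fun v => dig v j) h
    rwa [vec_dig fun j => hB _ (hf' j), vec_dig fun j => hB _ (hg' j)] at h2

/-- the numbers all whose digits in base `2 ^ L` lie in `B` -/
noncomputable def nums (n L : ℕ) (B : Finset ℕ) : Finset ℕ := (vecs n L B).image num

theorem card_nums {B : Finset ℕ} (hB : ∀ x ∈ B, x < 2 ^ L) :
    B.card ^ (n / L) ≤ (nums n L B).card := by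
  rw [nums, card_image_of_injective _ num_injective]
  exact card_vecs hB

theorem nums_free {B : Finset ℕ} (hB : ∀ x ∈ B, 2 * x < 2 ^ L) (hfree : NoAP 3 {q | 0 < q} B) :
    NoAP 3 {q | 0 < q} (nums n L B) := by
  classical
  intro a q hq
  by_contra hcon
  push Not at hcon
  obtain ⟨x, hx, hxa⟩ := mem_image.1 (hcon 0 (by norm_num))
  obtain ⟨y, hy, hya⟩ := mem_image.1 (hcon 1 (by norm_num))
  obtain ⟨z, hz, hza⟩ := mem_image.1 (hcon 2 (by norm_num))
  rw [mem_vecs] at hx hy hz
  have h1 : num x + num z = 2 * num y := by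
    rw [hxa, hya, hza]
    ring
  rw [num_eq_sum hx.1, num_eq_sum hy.1, num_eq_sum hz.1, ← sum_add_distrib, mul_sum] at h1
  have h2 : (fun j => dig x j + dig z j) = fun j : Fin (n / L) => 2 * dig y j := by
    apply digits_inj (b := 2 ^ L)
    · intro j
      have := hB _ (hx.2 j)
      have := hB _ (hz.2 j)
      omega
    · intro j
      exact hB _ (hy.2 j)
    · refine Eq.trans (sum_congr rfl fun j _ => ?_) (h1.trans (sum_congr rfl fun j _ => ?_))
      · ring
      · ring
  have h3 : ∀ j : Fin (n / L), dig x j = dig y j := by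
    intro j
    by_contra hne
    have h4 : dig x j + dig z j = 2 * dig y j := congrFun h2 j
    rcases lt_or_gt_of_ne hne with hlt | hgt
    · obtain ⟨i, hi, h5⟩ := hfree (dig x j) (dig y j - dig x j) (by
        show 0 < dig y j - dig x j
        omega)
      apply h5
      interval_cases i
      · simpa using hx.2 j
      · have e : dig x j + 1 * (dig y j - dig x j) = dig y j := by omega
        rw [e]
        exact hy.2 j
      · have e : dig x j + 2 * (dig y j - dig x j) = dig z j := by omega
        rw [e]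
        exact hz.2 j
    · obtain ⟨i, hi, h5⟩ := hfree (dig z j) (dig x j - dig y j) (by
        show 0 < dig x j - dig y j
        omega)
      apply h5
      interval_cases i
      · simpa using hz.2 j
      · have e : dig z j + 1 * (dig x j - dig y j) = dig y j := by omega
        rw [e]
        exact hy.2 j
      · have e : dig z j + 2 * (dig x j - dig y j) = dig x j := by omega
        rw [e]
        exact hx.2 j
  have h4 : num x = num y := by
    rw [num_eq_sum hx.1, num_eq_sum hy.1]
    exact sum_congr rfl fun j _ => by rw [h3 j]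
  rw [hxa, hya] at h4
  have : 0 < q := hq
  omega

end constr

section circuit

/-- the nodes of the circuit -/
abbrev Nd (n L : ℕ) : Type := Fin n ⊕ (Fin (n / L) × Fin (2 ^ L)) ⊕ Unit

/-- the values -/
def vl (n L : ℕ) (B : Finset ℕ) : Nd n L → (Fin n → Bool) → Bool
  | Sum.inl i, x => x i
  | Sum.inr (Sum.inl (j, t)), x => decide (∃ a : Fin L, x (pos j a) = !(t : ℕ).testBit a)
  | Sum.inr (Sum.inr ()), x => decide ((∀ i : Fin n, n / L * L ≤ i → x i = false) ∧
      ∀ (j : Fin (n / L)) (t : Fin (2 ^ L)), (t : ℕ) ∉ B →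
        ∃ a : Fin L, x (pos j a) = !(t : ℕ).testBit a)

/-- the depth of the nodes -/
def dp (n L : ℕ) : Nd n L → ℕ
  | Sum.inl _ => 0
  | Sum.inr (Sum.inl _) => 1
  | Sum.inr (Sum.inr _) => 2

open Classical in
/-- The circuit for `nums n L B`. -/
noncomputable def circ (n L : ℕ) (B : Finset ℕ) : Y603.MS.Circuit 1 n where
  Node := Nd n L
  val := vl n L B
  depth := dp n L
  leak := ∅
  rule := by
    intro v
    right
    match v with
    | Sum.inl i => exact Or.inl ⟨i, fun _ => rfl⟩
    | Sum.inr (Sum.inl (j, t)) =>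
      right
      refine ⟨univ.image fun a : Fin L => (Sum.inl (pos j a), !(t : ℕ).testBit a), ?_,
        Or.inr (Or.inr fun x => ?_)⟩
      · intro u hu
        obtain ⟨a, -, rfl⟩ := mem_image.1 hu
        show 0 < 1
        norm_num
      · show decide _ = decide _
        rw [decide_eq_decide]
        constructor
        · rintro ⟨a, ha⟩
          exact ⟨_, mem_image.2 ⟨a, mem_univ _, rfl⟩, ha⟩
        · rintro ⟨u, hu, hux⟩
          obtain ⟨a, -, rfl⟩ := mem_image.1 hu
          exact ⟨a, hux⟩
    | Sum.inr (Sum.inr ()) =>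
      right
      refine ⟨((univ.filter fun i : Fin n => n / L * L ≤ i).image fun i => (Sum.inl i, false)) ∪
        ((univ.filter fun q : Fin (n / L) × Fin (2 ^ L) => ((q.2 : ℕ) ∉ B)).image
          fun q => (Sum.inr (Sum.inl q), true)), ?_, Or.inr (Or.inl fun x => ?_)⟩
      · intro u hu
        rcases mem_union.1 hu with hu | hu
        · obtain ⟨i, -, rfl⟩ := mem_image.1 hu
          show 0 < 2
          norm_num
        · obtain ⟨q, -, rfl⟩ := mem_image.1 hu
          show 1 < 2
          norm_num
      · show decide _ = decide _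
        rw [decide_eq_decide]
        constructor
        · rintro ⟨h1, h2⟩ u hu
          rcases mem_union.1 hu with hu | hu
          · obtain ⟨i, hi, rfl⟩ := mem_image.1 hu
            exact h1 i (mem_filter.1 hi).2
          · obtain ⟨q, hq, rfl⟩ := mem_image.1 hu
            exact decide_eq_true (h2 q.1 q.2 (mem_filter.1 hq).2)
        · intro h
          refine ⟨fun i hi => ?_, fun j t ht => ?_⟩
          · exact h (Sum.inl i, false) (mem_union_left _ (mem_image.2
              ⟨i, mem_filter.2 ⟨mem_univ _, hi⟩, rfl⟩))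
          · have := h (Sum.inr (Sum.inl (j, t)), true) (mem_union_right _ (mem_image.2
              ⟨(j, t), mem_filter.2 ⟨mem_univ _, ht⟩, rfl⟩))
            exact of_decide_eq_true this

theorem circ_iff {n L : ℕ} {B : Finset ℕ} (x : Fin n → Bool) :
    (circ n L B).val (Sum.inr (Sum.inr ())) x = true ↔ x ∈ vecs n L B := by
  rw [mem_vecs]
  show decide _ = true ↔ _
  rw [decide_eq_true_iff]
  refine and_congr Iff.rfl (forall_congr' fun j => ?_)
  constructor
  · intro h
    by_contra hcon
    obtain ⟨a, ha⟩ := h ⟨dig x j, dig_lt x j⟩ hcon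
    have h2 : Y603.MS.bits L (dig x j) a = x (pos j a) := by
      rw [dig, bits_num]
    have h3 : (dig x j).testBit (a : ℕ) = x (pos j a) := h2
    rw [h3] at ha
    cases hx : x (pos j a) <;> rw [hx] at ha <;> simp at ha
  · intro h t ht
    by_contra hcon
    push Not at hcon
    apply ht
    have h2 : (fun a : Fin L => x (pos j a)) = Y603.MS.bits L t := by
      funext a
      have := hcon a
      show x (pos j a) = (t : ℕ).testBit a
      cases hx : x (pos j a) <;> cases ht2 : (t : ℕ).testBit a <;> simp_all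
    have h3 : dig x j = t := by
      rw [dig, h2, num_bits t.2]
    rw [← h3]
    exact h

theorem decided_nums {n L ℓ w d : ℕ} (hL : 1 ≤ L) (hn : 1 ≤ n) (hd : 2 ≤ d)
    (hℓ : n * 2 ^ (L + 1) ≤ 2 ^ ℓ) (B : Finset ℕ) (hw : 1 ≤ w) :
    Decided w ℓ d n (nums n L B) := by
  -- the gates of fan-in at most `w` are not used
  let C : Y603.MS.Circuit w n :=
    { Node := (circ n L B).Node
      finite := (circ n L B).finite
      val := (circ n L B).val
      depth := (circ n L B).depth
      leak := ∅
      rule := by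
        intro v
        rcases (circ n L B).rule v with h | h | ⟨J, hJ, h⟩
        · exact absurd h (by show v ∉ (∅ : Finset _); simp)
        · exact Or.inr (Or.inl h)
        · refine Or.inr (Or.inr ⟨J, hJ, ?_⟩)
          rcases h with ⟨h1, h2⟩ | h | h
          · exact Or.inl ⟨h1.trans hw, h2⟩
          · exact Or.inr (Or.inl h)
          · exact Or.inr (Or.inr h) }
  refine ⟨C, Sum.inr (Sum.inr ()), rfl, ?_, ?_, ?_⟩
  · refine le_trans ?_ hℓ
    show Nat.card (Nd n L) ≤ _
    rw [Nat.card_eq_fintype_card]
    simp only [Fintype.card_sum, Fintype.card_prod, Fintype.card_fin, Fintype.card_unit]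
    have h1 : n / L * 2 ^ L ≤ n * 2 ^ L := Nat.mul_le_mul_right _ (Nat.div_le_self _ _)
    have h2 : 2 ≤ 2 ^ L := by
      calc 2 = 2 ^ 1 := rfl
        _ ≤ 2 ^ L := Nat.pow_le_pow_right (by norm_num) hL
    rw [pow_succ]
    nlinarith
  · intro v
    show dp n L v ≤ d
    rcases v with i | q | u
    · exact Nat.zero_le _
    · show 1 ≤ d
      omega
    · exact hd
  · intro x
    constructor
    · intro hx
      obtain ⟨b, hb, rfl⟩ := mem_image.1 hx
      refine ⟨num_lt b, ?_⟩
      rw [bits_num]
      exact (circ_iff b).2 hb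
    · rintro ⟨hx, h⟩
      refine mem_image.2 ⟨Y603.MS.bits n x, (circ_iff _).1 h, num_bits hx⟩

end circuit

end Pool.Agent.N714.AP
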