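import Pool.Agent.N714.AP.Basic

/-!
# Progressions and circuits of constant depth: the upper bounds
-/

set_option autoImplicit false

namespace Pool.Agent.N714.AP

open Finset Function
open Pool.Agent.Y347.CO

/-- `F ⊆ {0, …, 2 ^ n - 1}` is decided by a circuit of depth at most `d` with at most `2 ^ ℓ` nodes,
which reads the `n` binary digits of a number; its gates are AND and OR gates of any number of wires
and arbitrary gates with at most `w` wires, negations are free. -/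
def Decided (w ℓ d n : ℕ) (F : Finset ℕ) : Prop :=
  ∃ (C : Y603.MS.Circuit w n) (o : C.Node), C.leak = ∅ ∧ Nat.card C.Node ≤ 2 ^ ℓ ∧
    (∀ v, C.depth v ≤ d) ∧ ∀ x, x ∈ F ↔ x < 2 ^ n ∧ C.val o (Y603.MS.bits n x) = true

/-- `F` is a disjoint union of `T` sets decided by such circuits. -/
def Pieces (T w ℓ d n : ℕ) (F : Finset ℕ) : Prop :=
  ∃ G : Fin T → Finset ℕ, (∀ i, Decided w ℓ d n (G i)) ∧
    (∀ i j, i ≠ j → Disjoint (G i) (G j)) ∧ ∀ x, x ∈ F ↔ ∃ i, x ∈ G i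

/-- `loss w ℓ d = d (2 ^ (d + 9) w ℓ) ^ d` -/
def loss (w ℓ d : ℕ) : ℕ := d * (2 ^ (d + 9) * (w * ℓ)) ^ d

/-- The numbers `a 2 ^ j` with `1 ≤ a ≤ Q` and `j ≥ 0`. -/
def Steps (Q : ℕ) : Set ℕ := {q | ∃ a j : ℕ, 1 ≤ a ∧ a ≤ Q ∧ q = a * 2 ^ j}

theorem loss_cast (w ℓ d : ℕ) : ((loss w ℓ d : ℕ) : ℝ) = (d : ℝ) * KK d w ℓ := by
  rw [loss, KK, Nat.cast_mul]

theorem one_le_loss {w ℓ d : ℕ} (hw : 1 ≤ w) (hℓ : 1 ≤ ℓ) (hd : 1 ≤ d) :
    (1 : ℝ) ≤ loss w ℓ d := by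
  have h : 0 < w * ℓ := Nat.mul_pos hw hℓ
  have : 0 < loss w ℓ d := by
    rw [loss]
    positivity
  exact_mod_cast this

/-- the error term -/
noncomputable def err (n w ℓ d k : ℕ) (ε : ℝ) : ℝ :=
  2 ^ n * (2 : ℝ) ^ (2 * ℓ + 4 - ε / 2 * k / loss w ℓ d : ℝ)

theorem err_nonneg (n w ℓ d k : ℕ) (ε : ℝ) : 0 ≤ err n w ℓ d k ε := by
  unfold err
  positivity

/-- the elements of `A` in the classes of the blocks -/
theorem class_le {k m r : ℕ} {A : Finset ℕ} (hk : 2 ≤ k) (hA : NoAP k (Steps (2 ^ m)) A)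
    (hr : ∀ B : Finset ℕ, B ⊆ range (2 ^ m) → NoAP k {q | 0 < q} B → B.card ≤ r) (c j : ℕ) :
    ((range (2 ^ m)).filter fun s => c + 2 ^ (j * m : ℕ) * s ∈ A).card ≤ r := by
  apply hr _ (filter_subset _ _)
  intro a q hq
  by_cases hq2 : q ≤ 2 ^ m
  · obtain ⟨i, hi, h⟩ := hA (c + 2 ^ (j * m : ℕ) * a) (q * 2 ^ (j * m : ℕ))
      ⟨q, j * m, hq, hq2, rfl⟩
    refine ⟨i, hi, fun h2 => h ?_⟩
    have h3 := (mem_filter.1 h2).2
    have e : c + 2 ^ (j * m : ℕ) * a + i * (q * 2 ^ (j * m : ℕ)) =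
        c + 2 ^ (j * m : ℕ) * (a + i * q) := by ring
    rw [e]
    exact h3
  · refine ⟨1, by omega, fun h2 => ?_⟩
    have h3 := mem_range.1 (mem_filter.1 h2).1
    omega

/-- the relative bound for one decided set -/
theorem rel_one {n m w ℓ d r : ℕ} (hℓ : 1 ≤ ℓ) (hw : 1 ≤ w) (hd1 : 1 ≤ d) (hm : 1 ≤ m)
    (hmn : m ≤ n) {F A : Finset ℕ} (hF : Decided w ℓ d n F)
    (hA : ∀ c j : ℕ, ((range (2 ^ m)).filter fun s => c + 2 ^ (j * m : ℕ) * s ∈ A).card ≤ r)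
    {ε : ℝ} (hε : 0 < ε) :
    ((A ∩ F).card : ℝ) ≤ (r / 2 ^ m + ε) * F.card + 2 * m / ε * err n w ℓ d (n / m) ε := by
  obtain ⟨C, o, hleak, hs, hd, hCF⟩ := hF
  have h := rel_blocks C hleak hℓ hw hd1 hs hd o hm hmn F A hCF hA hε
  rw [err, loss_cast]
  exact h

/-- the relative bound for disjoint unions of decided sets -/
theorem rel_pieces {n m w ℓ d r T : ℕ} (hℓ : 1 ≤ ℓ) (hw : 1 ≤ w) (hd1 : 1 ≤ d) (hm : 1 ≤ m)
    (hmn : m ≤ n) {F A : Finset ℕ} (hF : Pieces T w ℓ d n F)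
    (hA : ∀ c j : ℕ, ((range (2 ^ m)).filter fun s => c + 2 ^ (j * m : ℕ) * s ∈ A).card ≤ r)
    {ε : ℝ} (hε : 0 < ε) :
    ((A ∩ F).card : ℝ) ≤ (r / 2 ^ m + ε) * F.card +
      T * (2 * m / ε * err n w ℓ d (n / m) ε) := by
  classical
  obtain ⟨G, hG, hdis, hun⟩ := hF
  have hFG : F = univ.biUnion G := by
    ext x
    rw [hun, mem_biUnion]
    exact ⟨fun ⟨i, hi⟩ => ⟨i, mem_univ _, hi⟩, fun ⟨i, _, hi⟩ => ⟨i, hi⟩⟩
  have h1 : F.card = ∑ i, (G i).card := by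
    rw [hFG, card_biUnion fun i _ j _ h => hdis i j h]
  have h2 : (A ∩ F).card ≤ ∑ i, (A ∩ G i).card := by
    rw [hFG, inter_biUnion]
    exact card_biUnion_le
  have h3 : ((A ∩ F).card : ℝ) ≤ ∑ i, ((A ∩ G i).card : ℝ) := by exact_mod_cast h2
  have h4 : (F.card : ℝ) = ∑ i, ((G i).card : ℝ) := by exact_mod_cast h1
  refine h3.trans ((sum_le_sum fun i _ => rel_one hℓ hw hd1 hm hmn (hG i) hA hε).trans ?_)
  rw [sum_add_distrib, ← mul_sum, ← h4, sum_const, card_univ, Fintype.card_fin, nsmul_eq_mul]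

/-- Part 1. -/
theorem union_bound {n m w ℓ d k T : ℕ} (hℓ : 1 ≤ ℓ) (hw : 1 ≤ w) (hd1 : 1 ≤ d) (hm : 1 ≤ m)
    (hmn : m ≤ n) (hk : k ≤ 2 ^ m) {A : Finset ℕ} (F : Fin T → Finset ℕ)
    (hA : NoAP k (Steps 1) A) (hF : ∀ i, Decided w ℓ d n (F i)) (hun : ∀ x, x ∈ A ↔ ∃ i, x ∈ F i) :
    (A.card : ℝ) ≤ T * (m * 2 ^ (2 * m + 3)) *
      err n w ℓ d (n / m) (1 / 2 ^ (m + 1)) := by
  classical
  have h1 : ∀ i, ((F i).card : ℝ) ≤ m * 2 ^ (2 * m + 3) * err n w ℓ d (n / m) (1 / 2 ^ (m + 1)) := by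
    intro i
    have hsub : F i ⊆ A := fun x hx => (hun x).2 ⟨i, hx⟩
    have hcl : ∀ c j : ℕ, ((range (2 ^ m)).filter fun s => c + 2 ^ (j * m : ℕ) * s ∈ F i).card ≤
        2 ^ m - 1 := by
      intro c j
      by_contra hcon
      push Not at hcon
      have h2 : ((range (2 ^ m)).filter fun s => c + 2 ^ (j * m : ℕ) * s ∈ F i) = range (2 ^ m) := by
        apply eq_of_subset_of_card_le (filter_subset _ _)
        rw [card_range]
        omega
      obtain ⟨t, ht, h3⟩ := hA c (2 ^ (j * m : ℕ)) ⟨1, j * m, le_rfl, le_rfl, by ring⟩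
      have h4 : t ∈ range (2 ^ m) := mem_range.2 (lt_of_lt_of_le ht hk)
      rw [← h2] at h4
      apply h3
      have h5 := hsub (mem_filter.1 h4).2
      rwa [mul_comm] at h5
    have h2m : (1 : ℝ) ≤ 2 ^ m := one_le_pow₀ (by norm_num)
    have h := rel_one hℓ hw hd1 hm hmn (hF i) hcl (ε := 1 / 2 ^ (m + 1)) (by positivity)
    rw [inter_self, Nat.cast_sub Nat.one_le_two_pow] at h
    push_cast at h
    set E := err n w ℓ d (n / m) (1 / 2 ^ (m + 1)) with hE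
    have e1 : ((2 : ℝ) ^ m - 1) / 2 ^ m + 1 / 2 ^ (m + 1) = 1 - 1 / 2 ^ (m + 1) := by
      rw [pow_succ]
      field_simp
      ring
    rw [e1] at h
    have h5 : 1 / 2 ^ (m + 1) * ((F i).card : ℝ) ≤ 2 * m / (1 / 2 ^ (m + 1)) * E := by linarith
    have e2 : (2 : ℝ) * m / (1 / 2 ^ (m + 1)) = 2 * m * 2 ^ (m + 1) := by field_simp
    rw [e2] at h5
    have h6 := mul_le_mul_of_nonneg_left h5 (by positivity : (0 : ℝ) ≤ 2 ^ (m + 1))
    have e3 : (2 : ℝ) ^ (m + 1) * (1 / 2 ^ (m + 1) * ((F i).card : ℝ)) = (F i).card := by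
      field_simp
    rw [e3] at h6
    refine h6.trans (le_of_eq ?_)
    have e4 : (2 : ℝ) ^ (2 * m + 3) = 2 ^ (m + 1) * 2 ^ (m + 1) * 2 := by ring
    rw [e4]
    ring
  have h2 : A.card ≤ ∑ i, (F i).card := by
    refine (card_le_card (t := univ.biUnion F) fun p hp => ?_).trans card_biUnion_le
    obtain ⟨i, hi⟩ := (hun p).1 hp
    exact mem_biUnion.2 ⟨i, mem_univ _, hi⟩
  have h3 : (A.card : ℝ) ≤ ∑ i, ((F i).card : ℝ) := by exact_mod_cast h2
  refine h3.trans ((sum_le_sum fun i _ => h1 i).trans (le_of_eq ?_))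
  rw [sum_const, card_univ, Fintype.card_fin, nsmul_eq_mul]
  ring

/-- a single constant (as in `Y347.CO.Final4`) -/
theorem num_c (m : ℕ) (hm : 1 ≤ m) (Q β : ℝ) (hQ : 0 < Q) (hβ : 0 < β) :
    ∃ c : ℝ, 0 < c ∧ ∀ (n : ℕ) (X a : ℝ), 1 ≤ X → 0 ≤ a →
      (m ≤ n → Q * (2 : ℝ) ^ (a + 4 - β * (n / m : ℕ) / X) ≤ (2 : ℝ) ^ (a + 1 / c - c * n / X)) ∧
      (n < m → 1 ≤ (2 : ℝ) ^ (a + 1 / c - c * n / X)) := by
  set L : ℝ := max (Real.logb 2 Q) 0 with hL
  have hL0 : 0 ≤ L := le_max_right _ _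
  have hm' : (1 : ℝ) ≤ m := by exact_mod_cast hm
  set c : ℝ := min (β / (2 * m)) (1 / (4 + L + m)) with hc
  have hc0 : 0 < c := lt_min (by positivity) (by positivity)
  have hc1 : c ≤ β / (2 * m) := min_le_left _ _
  have hc2 : c ≤ 1 / (4 + L + m) := min_le_right _ _
  have hc3 : 4 + L + m ≤ 1 / c := by
    rw [le_div_iff₀ hc0]
    rw [le_div_iff₀ (by positivity)] at hc2
    linarith
  have hc4 : c ≤ 1 := by
    refine hc2.trans ?_
    rw [div_le_one (by positivity)]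
    linarith
  refine ⟨c, hc0, fun n X a hX ha => ⟨fun hmn => ?_, fun hnm => ?_⟩⟩
  · have hX0 : 0 < X := by linarith
    have hQ2 : Q ≤ (2 : ℝ) ^ L := by
      calc Q = (2 : ℝ) ^ (Real.logb 2 Q) := (Real.rpow_logb (by norm_num) (by norm_num) hQ).symm
        _ ≤ _ := Real.rpow_le_rpow_of_exponent_le (by norm_num) (le_max_left _ _)
    have h1 : Q * (2 : ℝ) ^ (a + 4 - β * (n / m : ℕ) / X) ≤
        (2 : ℝ) ^ (L + (a + 4 - β * (n / m : ℕ) / X)) := by
      rw [Real.rpow_add (by norm_num)]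
      exact mul_le_mul_of_nonneg_right hQ2 (by positivity)
    refine h1.trans (Real.rpow_le_rpow_of_exponent_le (by norm_num) ?_)
    have h2 : (n : ℝ) ≤ 2 * m * (n / m : ℕ) := by
      have h3 : n < (n / m + 1) * m := by
        have := Nat.lt_div_mul_add (a := n) (b := m) (by omega)
        nlinarith
      have h4 : 1 ≤ n / m := (Nat.one_le_div_iff (by omega)).2 hmn
      have h5 : n ≤ 2 * m * (n / m) := by nlinarith
      exact_mod_cast h5
    have h6 : c * n / X ≤ β * (n / m : ℕ) / X := by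
      apply div_le_div_of_nonneg_right _ hX0.le
      calc c * n ≤ β / (2 * m) * n := mul_le_mul_of_nonneg_right hc1 (Nat.cast_nonneg _)
        _ ≤ β / (2 * m) * (2 * m * (n / m : ℕ)) := mul_le_mul_of_nonneg_left h2 (by positivity)
        _ = β * (n / m : ℕ) := by field_simp
    linarith
  · apply Real.one_le_rpow (by norm_num)
    have hnm' : (n : ℝ) ≤ m := by exact_mod_cast hnm.le
    have h1 : c * n / X ≤ m := by
      rw [div_le_iff₀ (by linarith)]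
      have : c * n ≤ 1 * n := mul_le_mul_of_nonneg_right hc4 (Nat.cast_nonneg _)
      nlinarith
    linarith

/-- Part 3: **the relative Szemeredi theorem for sets decided by circuits.** -/
theorem rel_szem (k : ℕ) (δ : ℝ) (hδ : 0 < δ) : ∃ c : ℝ, 0 < c ∧ ∃ Q : ℕ, ∀ n w ℓ d T : ℕ,
    1 ≤ w → 1 ≤ ℓ → 1 ≤ d → ∀ F A : Finset ℕ, Pieces T w ℓ d n F → NoAP k (Steps Q) A →
      ((A ∩ F).card : ℝ) ≤ δ * F.card +
        T * (2 ^ n * (2 : ℝ) ^ (2 * ℓ + 1 / c - c * n / loss w ℓ d : ℝ)) := by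
  classical
  obtain ⟨M₀, hM₀⟩ := szem k (δ / 2) (by positivity)
  set m := M₀ + 1 with hm
  have hm1 : 1 ≤ m := by omega
  have hmM : M₀ ≤ 2 ^ m := by
    have := Nat.lt_two_pow_self (n := m)
    omega
  obtain ⟨c, hc0, hcc⟩ := num_c m hm1 (2 * m / (δ / 2)) (δ / 2 / 2) (by positivity) (by positivity)
  refine ⟨c, hc0, 2 ^ m, fun n w ℓ d T hw hℓ hd1 F A hF hA => ?_⟩
  obtain ⟨h1, h2⟩ := hcc n (loss w ℓ d) (2 * ℓ) (one_le_loss hw hℓ hd1) (by positivity)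
  have hAF : ((A ∩ F).card : ℝ) ≤ F.card := by exact_mod_cast card_le_card inter_subset_right
  have hFc : (F.card : ℝ) ≤ T * 2 ^ n := by
    obtain ⟨G, hG, -, hun⟩ := hF
    have h3 : ∀ i, (G i).card ≤ 2 ^ n := by
      intro i
      obtain ⟨C, o, -, -, -, hCF⟩ := hG i
      calc (G i).card ≤ (range (2 ^ n)).card :=
            card_le_card fun x hx => mem_range.2 ((hCF x).1 hx).1
        _ = 2 ^ n := card_range _
    have h4 : F.card ≤ ∑ i, (G i).card := by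
      refine (card_le_card (t := univ.biUnion G) fun p hp => ?_).trans card_biUnion_le
      obtain ⟨i, hi⟩ := (hun p).1 hp
      exact mem_biUnion.2 ⟨i, mem_univ _, hi⟩
    have h5 : F.card ≤ T * 2 ^ n := by
      refine h4.trans ((sum_le_sum fun i _ => h3 i).trans ?_)
      rw [sum_const, card_univ, Fintype.card_fin, smul_eq_mul]
    exact_mod_cast h5
  have hδF : 0 ≤ δ * F.card := by positivity
  have hT : (0 : ℝ) ≤ T := Nat.cast_nonneg _
  have h2n : (0 : ℝ) ≤ 2 ^ n := by positivity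
  rcases le_or_gt m n with hmn | hnm
  · rcases Nat.lt_or_ge k 2 with hk | hk
    · -- trivial progressions
      have hA0 : A = ∅ := by
        rw [eq_empty_iff_forall_notMem]
        intro x hx
        obtain ⟨i, hi, h⟩ := hA x 1 ⟨1, 0, le_rfl, Nat.one_le_two_pow, by simp⟩
        have : i = 0 := by omega
        subst this
        simp at h
        exact h hx
      rw [hA0, empty_inter, card_empty, Nat.cast_zero]
      positivity
    · have hr : ∀ B : Finset ℕ, B ⊆ range (2 ^ m) → NoAP k {q | 0 < q} B →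
          B.card ≤ ⌊δ / 2 * 2 ^ m⌋₊ := by
        intro B hB hfree
        apply Nat.le_floor
        have := hM₀ (2 ^ m) hmM B hB hfree
        exact_mod_cast this
      have h3 := rel_pieces hℓ hw hd1 hm1 hmn hF
        (class_le hk hA hr) (ε := δ / 2) (by positivity)
      have h6 : ((⌊δ / 2 * 2 ^ m⌋₊ : ℕ) : ℝ) ≤ δ / 2 * 2 ^ m := Nat.floor_le (by positivity)
      have h7 : ((⌊δ / 2 * 2 ^ m⌋₊ : ℕ) : ℝ) / 2 ^ m ≤ δ / 2 := by
        rw [div_le_iff₀ (by positivity)]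
        exact h6
      have h8 : (((⌊δ / 2 * 2 ^ m⌋₊ : ℕ) : ℝ) / 2 ^ m + δ / 2) * F.card ≤ δ * F.card := by
        apply mul_le_mul_of_nonneg_right _ (Nat.cast_nonneg _)
        linarith
      have h9 : 2 * m / (δ / 2) * err n w ℓ d (n / m) (δ / 2) ≤
          2 ^ n * (2 : ℝ) ^ (2 * ℓ + 1 / c - c * n / loss w ℓ d : ℝ) := by
        rw [err]
        have := mul_le_mul_of_nonneg_left (h1 hmn) h2n
        refine le_trans (le_of_eq ?_) this
        ring
      have h10 := mul_le_mul_of_nonneg_left h9 hT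
      linarith
  · have h3 := h2 hnm
    have h5 := mul_le_mul_of_nonneg_left h3 h2n
    have h6 := mul_le_mul_of_nonneg_left h5 hT
    linarith

end Pool.Agent.N714.AP
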